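import Pool.Agent.Helper3.PF.LPrime

/-!
# Project PG, block P6: the dimension of a module whose top weights are the top roots
-/

open Module LieModule LieAlgebra LieAlgebra.IsKilling AddMonoidAlgebra MTP.MF PF.W PF.L Filter

namespace PG.L

section base

variable {ι K M N : Type*} [Field K] [CharZero K] [AddCommGroup M] [Module K M] [AddCommGroup N] [Module K N]
  [Fintype ι]

/-- A base on which a given additive functional is nonnegative. -/
theorem exists_base_nonneg (P : RootPairing ι K M N) [P.IsRootSystem] [P.IsCrystallographic] [P.IsReduced]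
    (l : M →+ ℚ) : ∃ b : P.Base, ∀ i ∈ b.support, 0 ≤ l (P.root i) := by
  classical
  let _i : Module ℚ M := Module.compHom M (algebraMap ℚ K)
  obtain ⟨g, hg⟩ : ∃ g : Dual ℚ M, ∀ i, g (P.root i) ≠ 0 :=
    exists_dual_forall_apply_ne_zero P.root <| by simp [P.ne_zero]
  let := P.indexNeg
  obtain ⟨C, hC⟩ : ∃ C : ℕ, ∀ i, (0 < l (P.root i) → 0 < (C : ℚ) * l (P.root i) + g (P.root i)) ∧
      (l (P.root i) < 0 → (C : ℚ) * l (P.root i) + g (P.root i) < 0) := by
    have h1 : ∀ᶠ C : ℕ in atTop, ∀ i, (0 < l (P.root i) → 0 < (C : ℚ) * l (P.root i) + g (P.root i)) ∧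
        (l (P.root i) < 0 → (C : ℚ) * l (P.root i) + g (P.root i) < 0) := by
      rw [eventually_all]
      intro i
      rcases lt_trichotomy (l (P.root i)) 0 with h | h | h
      · have h2 : Tendsto (fun C : ℕ => (C : ℚ) * l (P.root i) + g (P.root i)) atTop atBot :=
          tendsto_atBot_add_const_right _ _ (tendsto_natCast_atTop_atTop.atTop_mul_const_of_neg h)
        filter_upwards [h2.eventually_lt_atBot 0] with C hC
        exact ⟨fun h3 => absurd h3 (not_lt.2 h.le), fun _ => hC⟩
      · filter_upwards with C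
        exact ⟨fun h3 => absurd h3 (by rw [h]; exact lt_irrefl _), fun h3 => absurd h3 (by rw [h]; exact lt_irrefl _)⟩
      · have h2 : Tendsto (fun C : ℕ => (C : ℚ) * l (P.root i) + g (P.root i)) atTop atTop :=
          tendsto_atTop_add_const_right _ _ (tendsto_natCast_atTop_atTop.atTop_mul_const h)
        filter_upwards [h2.eventually_gt_atTop 0] with C hC
        exact ⟨fun _ => hC, fun h3 => absurd h3 (not_lt.2 h.le)⟩
    exact h1.exists
  let f : M →+ ℚ := C • l + (g : M →+ ℚ)
  have hf : ∀ x, f x = (C : ℚ) * l x + g x := by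
    intro x
    simp [f]
  have hf0 : ∀ i, f (P.root i) ≠ 0 := by
    intro i
    rw [hf]
    rcases lt_trichotomy (l (P.root i)) 0 with h | h | h
    · exact ((hC i).2 h).ne
    · rw [h, mul_zero, zero_add]
      exact hg i
    · exact ((hC i).1 h).ne'
  refine ⟨RootPairing.Base.mk' P (IsAddIndecomposable.baseOf P.root f) (P.linearIndepOn_root_baseOf f hf0)
    (fun i ↦ IsAddIndecomposable.mem_or_neg_mem_closure_baseOf P.root f i (hf0 i) (by simp)), ?_⟩
  intro i hi
  have h1 : i ∈ IsAddIndecomposable.baseOf P.root f := by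
    simpa [RootPairing.Base.mk'] using hi
  have h2 : 0 < f (P.root i) := by
    obtain ⟨h, -⟩ := h1
    simpa using h
  rw [hf] at h2
  by_contra hneg
  exact absurd h2 (not_lt.2 ((hC i).2 (not_le.1 hneg)).le)

end base

variable {K : Type*} [Field K] [CharZero K] [IsAlgClosed K]
  {L : Type*} [LieRing L] [LieAlgebra K L] [FiniteDimensional K L] [IsKilling K L]
  {H : LieSubalgebra K L} [H.IsCartanSubalgebra]
  {V : Type*} [AddCommGroup V] [Module K V] [FiniteDimensional K V]
  [LieRingModule L V] [LieModule K L V] {I : Type*} [Fintype I]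

/-- The eigenspace of the Cartan subalgebra. -/
private def wsp99 (V : Type*) [AddCommGroup V] [Module K V] [LieRingModule L V] [LieModule K L V] (χ : Dual K H) :
    Submodule K V where
  carrier := {u | ∀ h : H, ⁅(h : L), u⁆ = χ h • u}
  add_mem' := by
    intro a b ha hb h
    rw [lie_add, ha h, hb h, smul_add]
  zero_mem' := by
    intro h
    simp
  smul_mem' := by
    intro c a ha h
    rw [lie_smul, ha h, smul_comm]

omit [CharZero K] [IsAlgClosed K] [FiniteDimensional K L] [IsKilling K L] [H.IsCartanSubalgebra]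
  [FiniteDimensional K V] in
/-- The multiplicity of a weight is the dimension of the eigenspace. -/
private theorem card_wsp99 (B : WB (V := V) H I) (χ : Dual K H) [DecidablePred fun i => B.w i = χ] :
    (Finset.univ.filter fun i => B.w i = χ).card = finrank K (wsp99 V χ) := by
  classical
  have h1 : wsp99 V χ = Submodule.span K (Set.range fun i : {i // B.w i = χ} => B.v i.1) := by
    apply le_antisymm
    · intro u hu
      rw [← B.v.sum_repr u]
      refine Submodule.sum_mem _ fun i _ => ?_
      by_cases h0 : B.v.repr u i = 0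
      · rw [h0, zero_smul]
        exact Submodule.zero_mem _
      · refine Submodule.smul_mem _ _ (Submodule.subset_span ⟨⟨i, ?_⟩, rfl⟩)
        ext h
        exact B.coord (hu h) h0
    · rw [Submodule.span_le]
      rintro _ ⟨⟨i, hi⟩, rfl⟩ h
      rw [B.lie_v i h, hi]
  have h2 : finrank K (Submodule.span K (Set.range fun i : {i // B.w i = χ} => B.v i.1)) =
      Fintype.card {i // B.w i = χ} :=
    finrank_span_eq_card (B.v.linearIndependent.comp (fun i : {i // B.w i = χ} => i.1) Subtype.val_injective)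
  rw [h1, h2, Fintype.card_subtype]

omit [CharZero K] [IsAlgClosed K] [FiniteDimensional K L] [IsKilling K L] in
private theorem adj_irr99 [LieAlgebra.IsSimple K L] (W : Submodule K L) (hW : ∀ x : L, ∀ u ∈ W, ⁅x, u⁆ ∈ W) :
    W = ⊥ ∨ W = ⊤ := by
  let I : LieIdeal K L := { W with lie_mem := fun {x m} hm => hW x m hm }
  rcases LieAlgebra.IsSimple.eq_bot_or_eq_top (R := K) I with h | h
  · left
    have : I.toSubmodule = ⊥ := by rw [h]; rfl
    exact this
  · right
    have : I.toSubmodule = ⊤ := by rw [h]; rfl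
    exact this

omit [CharZero K] [IsAlgClosed K] in
private theorem adj_faith99 (_H : LieSubalgebra K L) (x : L) (hx : ∀ u : L, ⁅x, u⁆ = 0) : x = 0 := by
  have h1 : x ∈ LieAlgebra.center K L := by
    rw [LieModule.mem_maxTrivSubmodule]
    intro u
    rw [← lie_skew, hx u, neg_zero]
  have h2 : LieAlgebra.center K L = ⊥ := LieAlgebra.center_eq_bot K L
  rw [h2, LieSubmodule.mem_bot] at h1
  exact h1

private theorem finrank_root99 (α : H.root) : finrank K (wsp99 (H := H) L ((rootSystem H).root α)) = 1 := by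
  have h1 : wsp99 (H := H) L ((rootSystem H).root α) = (rootSpace H α.1).toSubmodule := by
    ext x
    constructor
    · intro hx
      have h2 : x ∈ weightSpace L (α.1 : H → K) := by
        rw [mem_weightSpace]
        exact hx
      exact weightSpace_le_genWeightSpace L _ h2
    · intro hx h
      exact lie_root hx h
  rw [h1]
  exact finrank_rootSpace_eq_one α.1 (H.isNonZero_coe_root α)

omit [CharZero K] [IsAlgClosed K] in
private theorem finrank_zero99 : finrank K (wsp99 (H := H) L (0 : Dual K H)) = finrank K H := by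
  have h1 : wsp99 (H := H) L (0 : Dual K H) = H.toSubmodule := by
    ext x
    constructor
    · intro hx
      have h2 : x ∈ weightSpace L (0 : H → K) := by
        rw [mem_weightSpace]
        exact hx
      have h3 := weightSpace_le_genWeightSpace L _ h2
      have h4 : x ∈ rootSpace H (0 : H → K) := h3
      rw [rootSpace_zero_eq, LieSubalgebra.mem_toLieSubmodule] at h4
      exact h4
    · intro hx h
      have h2 : ⁅h, (⟨x, hx⟩ : H)⁆ = 0 := trivial_lie_zero _ _ _ _
      have h3 := congrArg (fun y : H => (y : L)) h2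
      simp only [LieSubalgebra.coe_bracket, ZeroMemClass.coe_zero] at h3
      rw [LinearMap.zero_apply, zero_smul]
      exact h3
  rw [h1]
  rfl

omit [Fintype I] in
/-- The weights of the adjoint module. -/
private theorem adj_w99 (B' : WB (V := L) H I) (i : I) : B'.w i = 0 ∨ ∃ α : H.root, B'.w i = (rootSystem H).root α := by
  by_cases h0 : B'.w i = 0
  · exact Or.inl h0
  right
  have h1 : B'.v i ∈ genWeightSpace L (B'.w i : H → K) := by
    apply weightSpace_le_genWeightSpace L
    rw [mem_weightSpace]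
    exact fun h => B'.lie_v i h
  have hne : genWeightSpace L (B'.w i : H → K) ≠ ⊥ := by
    intro h
    rw [h, LieSubmodule.mem_bot] at h1
    exact B'.v.ne_zero i h1
  let χ : Weight K H L := ⟨(B'.w i : H → K), hne⟩
  have hχ : ¬ χ.IsZero := by
    intro h
    apply h0
    ext x
    have h2 : χ x = 0 := congrFun h x
    exact h2
  have hmem : χ ∈ H.root := by simpa [LieSubalgebra.root] using hχ
  refine ⟨⟨χ, hmem⟩, ?_⟩
  ext x
  rfl

private theorem adj_card99 (B' : WB (V := L) H I) : Fintype.card I = H.root.card + finrank K H := by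
  classical
  have h1 : Fintype.card I = ∑ χ ∈ insert (0 : Dual K H) (Finset.univ.image fun α : H.root => (rootSystem H).root α),
      (Finset.univ.filter fun i => B'.w i = χ).card := by
    rw [← Finset.card_univ]
    refine Finset.card_eq_sum_card_fiberwise fun i _ => ?_
    rcases adj_w99 B' i with h | ⟨α, hα⟩
    · simp [h]
    · simp [hα]
  rw [Finset.sum_insert, Finset.sum_image] at h1
  · rw [h1, card_wsp99, finrank_zero99, add_comm]
    congr 1
    rw [Finset.sum_congr rfl fun α _ => (card_wsp99 B' _).trans (finrank_root99 α)]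
    simp
  · intro α _ β _ h
    exact (rootSystem H).root.injective h
  · intro h
    rw [Finset.mem_image] at h
    obtain ⟨α, -, hα⟩ := h
    exact (rootSystem H).ne_zero α hα

omit [CharZero K] [IsAlgClosed K] [FiniteDimensional K L] [IsKilling K L] in
/-- The adjoint module of a simple Lie algebra is irreducible. -/
theorem adj_irr [LieAlgebra.IsSimple K L] (W : Submodule K L) (hW : ∀ x : L, ∀ u ∈ W, ⁅x, u⁆ ∈ W) :
    W = ⊥ ∨ W = ⊤ := adj_irr99 W hW

omit [Fintype I] in
/-- The weights of the adjoint module are 0 and the roots. -/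
theorem adj_w (B' : WB (V := L) H I) (i : I) : B'.w i = 0 ∨ ∃ α : H.root, B'.w i = (rootSystem H).root α := adj_w99 B' i

/-- The dimension of the Lie algebra. -/
theorem finrank_eq_root_card [LieAlgebra.IsSimple K L] (H : LieSubalgebra K L) [H.IsCartanSubalgebra] :
    finrank K L = Fintype.card H.root + finrank K H := by
  obtain ⟨n', ⟨B'⟩⟩ := exists_WB (V := L) (H := H) (adj_irr99 (K := K) (L := L))
  have h1 := adj_card99 B'
  rw [← finrank_eq_card_basis B'.v] at h1
  rw [h1, Fintype.card_coe]

/-- The product of the values of half the sum of the positive roots does not vanish. -/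
private theorem rho_ne99 (b : (rootSystem H).Base) : ∏ α ∈ pos b, rho b (coroot α.1) ≠ 0 := by
  classical
  rw [Finset.prod_ne_zero_iff]
  intro α hα
  have hp : b.IsPos α := by simpa [pos] using hα
  obtain ⟨f, hf, hf'⟩ := coroot_eq_sum b hp
  have h1 : rho b (coroot α.1) = ((∑ j ∈ b.support, f j : ℕ) : K) := by
    have h2 : coroot α.1 = ∑ j ∈ b.support, (f j : K) • coroot j.1 := hf
    rw [h2, map_sum, Nat.cast_sum]
    refine Finset.sum_congr rfl fun j hj => ?_
    have : rho b (coroot j.1) = 1 := rho_coroot b hj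
    rw [map_smul, this, smul_eq_mul, mul_one]
  rw [h1]
  exact_mod_cast hf'.ne'

omit [IsAlgClosed K] [FiniteDimensional K L] [IsKilling K L] [H.IsCartanSubalgebra] in
/-- The value of the functional given by an element of the Cartan subalgebra. -/
private theorem exists_val99 (h0 : H) : ∃ l : Dual K H →+ ℚ, ∀ χ : Dual K H, ∀ q : ℚ, χ h0 = (q : K) → l χ = q := by
  classical
  obtain ⟨π, hπ⟩ : ∃ π : K →ₗ[ℚ] ℚ, π 1 = 1 := by
    have h1 : (LinearMap.toSpanSingleton ℚ K 1).ker = ⊥ := LinearMap.ker_toSpanSingleton ℚ one_ne_zero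
    obtain ⟨π, hπ⟩ := LinearMap.exists_leftInverse_of_injective _ h1
    refine ⟨π, ?_⟩
    have := congrArg (fun F : ℚ →ₗ[ℚ] ℚ => F 1) hπ
    simpa using this
  refine ⟨{ toFun := fun χ => π (χ h0), map_zero' := by simp, map_add' := by intro x y; simp }, ?_⟩
  intro χ q hq
  change π (χ h0) = q
  rw [hq]
  have : (q : K) = q • (1 : K) := by rw [Rat.smul_def, mul_one]
  rw [this, map_smul, hπ, smul_eq_mul, mul_one]

/-- If the weights of degree 1 are the roots of degree 1, then the dimension of the module is the dimension of the Lie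
algebra. -/
theorem card_eq_finrank [LieAlgebra.IsSimple K L] (B : WB (V := V) H I)
    (hirr : ∀ W : Submodule K V, (∀ x : L, ∀ u ∈ W, ⁅x, u⁆ ∈ W) → W = ⊥ ∨ W = ⊤)
    (hfaith : ∀ x : L, (∀ u : V, ⁅x, u⁆ = 0) → x = 0) (h0 : H)
    (hV : ∀ i, B.w i h0 = 1 ∨ B.w i h0 = 0 ∨ B.w i h0 = -1)
    (hL : ∀ α : H.root, α.1 h0 = 1 ∨ α.1 h0 = 0 ∨ α.1 h0 = -1)
    (hne : ∃ i, B.w i h0 = 1)
    (hY1 : ∀ i, B.w i h0 = 1 → ∃ α : H.root, (rootSystem H).root α = B.w i)
    (hY2 : ∀ α : H.root, α.1 h0 = 1 → ∃ i, B.w i = (rootSystem H).root α) :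
    Fintype.card I = finrank K L := by
  classical
  obtain ⟨i0, hi0⟩ := hne
  have hI : Nonempty I := ⟨i0⟩
  -- the base
  obtain ⟨l, hl⟩ := exists_val99 h0
  obtain ⟨b, hb⟩ := exists_base_nonneg (rootSystem H) l
  have hb' : ∀ j ∈ b.support, ∃ m : ℕ, (rootSystem H).root j h0 = (m : K) := by
    intro j hj
    have h1 := hb j hj
    have e : (rootSystem H).root j h0 = j.1 h0 := rfl
    rcases hL j with h | h | h
    · exact ⟨1, by rw [e, h, Nat.cast_one]⟩
    · exact ⟨0, by rw [e, h, Nat.cast_zero]⟩
    · exfalso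
      have h2 := hl ((rootSystem H).root j) (-1) (by rw [e, h]; push_cast; rfl)
      rw [h2] at h1
      norm_num at h1
  choose! m hm using hb'
  have hval : ∀ χ μ : Dual K H, Below b χ μ → ∃ k : ℕ, χ h0 = μ h0 + (k : K) := by
    rintro χ μ ⟨κ, hκ⟩
    refine ⟨∑ i ∈ b.support, κ i * m i, ?_⟩
    rw [hκ, LinearMap.sub_apply, LinearMap.sum_apply]
    push_cast
    have : ∑ i ∈ b.support, ((κ i : K) • (rootSystem H).root i) h0 = ∑ i ∈ b.support, (κ i : K) * (m i : K) := by
      refine Finset.sum_congr rfl fun i hi => ?_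
      rw [LinearMap.smul_apply, hm i hi, smul_eq_mul]
    rw [this]
    ring
  have htop : ∀ c : K, (c = 1 ∨ c = 0 ∨ c = -1) → (∃ k : ℕ, c = 1 + (k : K)) → c = 1 := by
    rintro c hc ⟨k, hk⟩
    rcases hc with h | h | h
    · exact h
    · exfalso
      rw [h] at hk
      have : ((1 + k : ℕ) : K) = 0 := by push_cast; exact hk.symm
      have h2 : 1 + k = 0 := by exact_mod_cast this
      omega
    · exfalso
      rw [h] at hk
      have : ((2 + k : ℕ) : K) = 0 := by
        push_cast
        linear_combination hk.symm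
      have h2 : 2 + k = 0 := by exact_mod_cast this
      omega
  -- the two modules
  obtain ⟨t, ht1, -, ht3⟩ := dimension B hirr hfaith b
  obtain ⟨n', ⟨B'⟩⟩ := exists_WB (V := L) (H := H) (adj_irr99 (K := K) (L := L))
  have hcard' : n' = finrank K L := by
    have := finrank_eq_card_basis B'.v
    rw [this, Fintype.card_fin]
  obtain ⟨α0, hα0⟩ := hY1 i0 hi0
  have hα0' : α0.1 h0 = 1 := by
    have : (rootSystem H).root α0 h0 = α0.1 h0 := rfl
    rw [← this, hα0, hi0]
  have hexw : ∀ α : H.root, ∃ i, B'.w i = (rootSystem H).root α := by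
    intro α
    have h1 : (Finset.univ.filter fun i => B'.w i = (rootSystem H).root α).card = 1 :=
      (card_wsp99 B' _).trans (finrank_root99 α)
    obtain ⟨i, hi⟩ := Finset.card_pos.1 (by rw [h1]; exact one_pos)
    exact ⟨i, by simpa using hi⟩
  obtain ⟨i1, hi1⟩ := hexw α0
  have hI' : Nonempty (Fin n') := ⟨i1⟩
  obtain ⟨t', ht1', -, ht3'⟩ := dimension B' (adj_irr99 (K := K) (L := L)) (adj_faith99 H) b
  -- the top weights have degree one
  have e1 : B.w t h0 = 1 := by
    apply htop _ (hV t)
    obtain ⟨k, hk⟩ := hval _ _ (ht1 i0)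
    exact ⟨k, by rw [hk, hi0]⟩
  have e2 : B'.w t' h0 = 1 := by
    apply htop
    · rcases adj_w99 B' t' with h | ⟨α, hα⟩
      · right; left
        rw [h, LinearMap.zero_apply]
      · rw [hα]
        exact hL α
    · obtain ⟨k, hk⟩ := hval _ _ (ht1' i1)
      refine ⟨k, ?_⟩
      rw [hk, hi1]
      congr 1
  -- they are equal
  have e3 : B'.w t' = B.w t := by
    obtain ⟨α, hα⟩ := hY1 t e1
    obtain ⟨i2, hi2⟩ := hexw α
    have h1 : Below b (B'.w t') (B.w t) := by
      rw [← hα, ← hi2]
      exact ht1' i2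
    rcases adj_w99 B' t' with h | ⟨β, hβ⟩
    · exfalso
      rw [h, LinearMap.zero_apply] at e2
      exact zero_ne_one e2
    · have h2 : β.1 h0 = 1 := by
        have : (rootSystem H).root β h0 = β.1 h0 := rfl
        rw [← this, ← hβ, e2]
      obtain ⟨i3, hi3⟩ := hY2 β h2
      have h3 : Below b (B.w t) (B'.w t') := by
        rw [hβ, ← hi3]
        exact ht1 i3
      exact Below.antisymm h3 h1
  rw [e3, ← ht3, Fintype.card_fin] at ht3'
  have h5 := mul_right_cancel₀ (rho_ne99 b) ht3'
  rw [← hcard']
  exact_mod_cast h5.symm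

/-- Counting the three values. -/
private theorem split99 {F J : Type*} [Field F] [CharZero F] [Fintype J] (f : J → F)
    (hf : ∀ j, f j = 1 ∨ f j = 0 ∨ f j = -1) :
    Fintype.card J = Nat.card {j // f j = 1} + Nat.card {j // f j = 0} + Nat.card {j // f j = -1} := by
  classical
  have hz : (0 : F) ≠ 1 := zero_ne_one
  have hz1 : (0 : F) ≠ -1 := by
    intro h
    have : (1 : F) = 0 := by linear_combination h
    exact one_ne_zero this
  have hz2 : (1 : F) ≠ -1 := by
    intro h
    have : (2 : F) = 0 := by linear_combination h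
    exact two_ne_zero this
  rw [Nat.card_eq_fintype_card, Nat.card_eq_fintype_card, Nat.card_eq_fintype_card, Fintype.card_subtype,
    Fintype.card_subtype, Fintype.card_subtype, ← Finset.card_univ, ← Finset.card_union_of_disjoint,
    ← Finset.card_union_of_disjoint]
  · congr 1
    ext j
    simp only [Finset.mem_univ, Finset.mem_union, Finset.mem_filter, true_and, true_iff]
    rcases hf j with h | h | h
    · exact Or.inl (Or.inl h)
    · exact Or.inl (Or.inr h)
    · exact Or.inr h
  · rw [Finset.disjoint_left]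
    intro j hj hj'
    simp only [Finset.mem_univ, Finset.mem_union, Finset.mem_filter, true_and] at hj hj'
    rcases hj with h | h
    · exact hz2 (h.symm.trans hj')
    · exact hz1 (h.symm.trans hj')
  · rw [Finset.disjoint_left]
    intro j hj hj'
    simp only [Finset.mem_univ, Finset.mem_filter, true_and] at hj hj'
    exact hz (hj'.symm.trans hj)

omit [CharZero K] [IsAlgClosed K] [FiniteDimensional K L] [IsKilling K L] [H.IsCartanSubalgebra]
  [FiniteDimensional K V] in
/-- The three degrees of the weights. -/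
theorem card_weights_split [CharZero K] (B : WB (V := V) H I) (h0 : H)
    (hV : ∀ i, B.w i h0 = 0 ∨ B.w i h0 = 1 ∨ B.w i h0 = -1) :
    Fintype.card I = Nat.card {i // B.w i h0 = 1} + Nat.card {i // B.w i h0 = 0} + Nat.card {i // B.w i h0 = -1} :=
  split99 (fun i => B.w i h0) fun i => by
    rcases hV i with h | h | h
    · exact Or.inr (Or.inl h)
    · exact Or.inl h
    · exact Or.inr (Or.inr h)

/-- The number of the roots is the number of roots of degree 0 and twice the number of roots of degree 1. -/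
theorem card_roots_split (h0 : H) (hL : ∀ α : H.root, α.1 h0 = 0 ∨ α.1 h0 = 1 ∨ α.1 h0 = -1) :
    Fintype.card H.root = 2 * Nat.card {α : H.root // α.1 h0 = 1} + Nat.card {α : H.root // α.1 h0 = 0} := by
  have hs2 := split99 (fun α : H.root => α.1 h0) (fun α => by
    rcases hL α with h | h | h
    · exact Or.inr (Or.inl h)
    · exact Or.inl h
    · exact Or.inr (Or.inr h))
  have h3' : Nat.card {α : H.root // α.1 h0 = -1} = Nat.card {α : H.root // α.1 h0 = 1} := by
    let := (rootSystem H).indexNeg
    have hneg : ∀ α : H.root, (-α).1 h0 = -(α.1 h0) := by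
      intro α
      have h4 : (rootSystem H).root (-α) = -(rootSystem H).root α := by
        rw [RootPairing.indexNeg_neg, RootPairing.root_reflectionPerm, RootPairing.reflection_apply_self]
      exact congrArg (fun f : Dual K H => f h0) h4
    refine Nat.card_congr ⟨fun α => ⟨-α.1, ?_⟩, fun α => ⟨-α.1, ?_⟩, fun α => Subtype.ext (neg_neg α.1),
      fun α => Subtype.ext (neg_neg α.1)⟩
    · rw [hneg, α.2, neg_neg]
    · rw [hneg, α.2]
  rw [hs2, h3']
  ring

/-- The count of the weights of degree 0. -/
theorem count [LieAlgebra.IsSimple K L] (B : WB (V := V) H I)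
    (hirr : ∀ W : Submodule K V, (∀ x : L, ∀ u ∈ W, ⁅x, u⁆ ∈ W) → W = ⊥ ∨ W = ⊤)
    (hfaith : ∀ x : L, (∀ u : V, ⁅x, u⁆ = 0) → x = 0) (h0 : H)
    (hV : ∀ i, B.w i h0 = 1 ∨ B.w i h0 = 0 ∨ B.w i h0 = -1)
    (hL : ∀ α : H.root, α.1 h0 = 1 ∨ α.1 h0 = 0 ∨ α.1 h0 = -1)
    (hne : ∃ i, B.w i h0 = 1)
    (hY1 : ∀ i, B.w i h0 = 1 → ∃ α : H.root, (rootSystem H).root α = B.w i)
    (hY2 : ∀ α : H.root, α.1 h0 = 1 → ∃ i, B.w i = (rootSystem H).root α) {s : ℕ}
    (h1 : Nat.card {i // B.w i h0 = 1} = s) (h2 : Nat.card {i // B.w i h0 = -1} = s)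
    (h3 : Nat.card {α : H.root // α.1 h0 = 1} = s) :
    Nat.card {i // B.w i h0 = 0} = Nat.card {α : H.root // α.1 h0 = 0} + finrank K H := by
  classical
  have hcard := card_eq_finrank B hirr hfaith h0 hV hL hne hY1 hY2
  obtain ⟨n', ⟨B'⟩⟩ := exists_WB (V := L) (H := H) (adj_irr99 (K := K) (L := L))
  have hcard' : n' = finrank K L := by
    have := finrank_eq_card_basis B'.v
    rw [this, Fintype.card_fin]
  have hadj := adj_card99 B'
  rw [Fintype.card_fin, hcard'] at hadj
  have hs1 := split99 (fun i => B.w i h0) hV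
  have hs2 := split99 (fun α : H.root => α.1 h0) hL
  have h3' : Nat.card {α : H.root // α.1 h0 = -1} = s := by
    rw [← h3]
    let := (rootSystem H).indexNeg
    have hneg : ∀ α : H.root, (-α).1 h0 = -(α.1 h0) := by
      intro α
      have h4 : (rootSystem H).root (-α) = -(rootSystem H).root α := by
        rw [RootPairing.indexNeg_neg, RootPairing.root_reflectionPerm, RootPairing.reflection_apply_self]
      exact congrArg (fun f : Dual K H => f h0) h4
    refine Nat.card_congr ⟨fun α => ⟨-α.1, ?_⟩, fun α => ⟨-α.1, ?_⟩, fun α => Subtype.ext (neg_neg α.1),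
      fun α => Subtype.ext (neg_neg α.1)⟩
    · rw [hneg, α.2, neg_neg]
    · rw [hneg, α.2]
  have hroot : Fintype.card H.root = H.root.card := Fintype.card_coe _
  rw [h1, h2] at hs1
  rw [h3, h3'] at hs2
  omega

end PG.L
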