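import Pool.Agent.Helper99.PG.Num
import Pool.Agent.Helper98.PG.Real
import Pool.Agent.Helper2.PG.End

/-!
# Project PG: the last count, in the language of the Euclidean realisation
-/

open Module LieModule LieAlgebra LieAlgebra.IsKilling MTP.MF PF PF.CC

namespace PG

variable {K : Type*} [Field K] [CharZero K] [IsAlgClosed K]
  {L : Type*} [LieRing L] [LieAlgebra K L] [FiniteDimensional K L] [IsKilling K L]
  {H : LieSubalgebra K L} [H.IsCartanSubalgebra]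
  {V : Type*} [AddCommGroup V] [Module K V] [FiniteDimensional K V]
  [LieRingModule L V] [LieModule K L V] {I : Type*} [Fintype I]

private theorem root_iff99 {y : H} {ℓ : EuclideanSpace ℝ H.root →ₗ[ℝ] ℝ} (hℓ : IsLev y ℓ)
    (hrt : ∀ α : H.root, Three (α.1 y)) (k : ℤ) :
    {c | c ∈ Ph (rootSystem H) ∧ ℓ c = (k : ℝ)} =
      Set.range fun α : {α : H.root // α.1 y = (k : K)} => vec (rt (rootSystem H) α.1) := by
  ext c
  constructor
  · rintro ⟨h1, h2⟩
    obtain ⟨α, rfl⟩ := (mem_Ph _).1 h1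
    have h3 : ∃ k : ℤ, α.1 y = (k : K) := by
      obtain ⟨k, hk, -⟩ := (hrt α).int
      exact ⟨k, hk⟩
    exact ⟨⟨α, (hℓ.root_iff h3 k).1 h2⟩, rfl⟩
  · rintro ⟨⟨α, hα⟩, rfl⟩
    exact ⟨(mem_Ph _).2 ⟨α, rfl⟩, hℓ.root hα⟩

private theorem ncard99 {y : H} {ℓ : EuclideanSpace ℝ H.root →ₗ[ℝ] ℝ} (hℓ : IsLev y ℓ)
    (hrt : ∀ α : H.root, Three (α.1 y)) (k : ℤ) :
    {c | c ∈ Ph (rootSystem H) ∧ ℓ c = (k : ℝ)}.ncard = Nat.card {α : H.root // α.1 y = (k : K)} := by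
  rw [root_iff99 hℓ hrt k, ← Nat.card_coe_set_eq]
  refine Nat.card_range_of_injective ?_
  rintro ⟨α, hα⟩ ⟨β, hβ⟩ h
  have h1 : rt (rootSystem H) α = rt (rootSystem H) β := vec_inj h
  have h2 : (rootSystem H).root α = (rootSystem H).root β := by
    refine dual_ext fun γ => ?_
    have e1 : α.1 (coroot γ.1) = (rt (rootSystem H) α γ : K) := rt_spec α γ
    have e2 : β.1 (coroot γ.1) = (rt (rootSystem H) β γ : K) := rt_spec β γ
    have e3 : α.1 (coroot γ.1) = β.1 (coroot γ.1) := by rw [e1, e2, h1]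
    exact e3
  exact Subtype.ext ((rootSystem H).root.injective h2)

/-- The number of the roots of degree `k`. -/
theorem ncard_roots {y : H} {ℓ : EuclideanSpace ℝ H.root →ₗ[ℝ] ℝ} (hℓ : IsLev y ℓ)
    (hrt : ∀ α : H.root, Three (α.1 y)) (k : ℤ) :
    {c | c ∈ Ph (rootSystem H) ∧ ℓ c = (k : ℝ)}.ncard = Nat.card {α : H.root // α.1 y = (k : K)} := ncard99 hℓ hrt k

/-- The final count. -/
theorem card_last [LieAlgebra.IsSimple K L] (B : WB (V := V) H I)
    (hirr : ∀ W : Submodule K V, (∀ x : L, ∀ u ∈ W, ⁅x, u⁆ ∈ W) → W = ⊥ ∨ W = ⊤)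
    (hfaith : ∀ x : L, (∀ u : V, ⁅x, u⁆ = 0) → x = 0)
    {y : H} {ℓ : EuclideanSpace ℝ H.root →ₗ[ℝ] ℝ} (hℓ : IsLev y ℓ)
    (hrt : ∀ α : H.root, Three (α.1 y)) (hw : ∀ i, Three (B.w i y)) (hne : ∃ i, B.w i y = 1)
    (hY : ∀ x, (x ∈ Xw B ∧ ℓ x = 1) ↔ (x ∈ Ph (rootSystem H) ∧ ℓ x = 1)) {s m : ℕ}
    (hs : {x | x ∈ Xw B ∧ ℓ x = 1}.ncard = s)
    (hc : Count (Ph (rootSystem H)) ℓ.toAddMonoidHom m)
    (hrank : finrank K H =
      finrank ℝ (Submodule.span ℝ (Ph (rootSystem H) : Set (EuclideanSpace ℝ H.root)))) :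
    Fintype.card I = 2 * s + m := by
  classical
  have hwint : ∀ i, ∃ k : ℤ, B.w i y = (k : K) := fun i => by
    obtain ⟨k, hk, -⟩ := (hw i).int
    exact ⟨k, hk⟩
  have hrint : ∀ α : H.root, ∃ k : ℤ, α.1 y = (k : K) := fun α => by
    obtain ⟨k, hk, -⟩ := (hrt α).int
    exact ⟨k, hk⟩
  have hext : ∀ (i : I) (α : H.root), vec (wt B i) = vec (rt (rootSystem H) α) →
      B.w i = (rootSystem H).root α := by
    intro i α h
    have h1 : wt B i = rt (rootSystem H) α := vec_inj h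
    refine dual_ext fun β => ?_
    rw [wt_spec B i β, h1]
    exact (rt_spec α β).symm
  have hcard : Fintype.card I = finrank K L := by
    refine PG.L.card_eq_finrank B hirr hfaith y ?_ ?_ hne ?_ ?_
    · intro i
      rcases hw i with h | h | h
      · exact Or.inr (Or.inl h)
      · exact Or.inl h
      · exact Or.inr (Or.inr h)
    · intro α
      rcases hrt α with h | h | h
      · exact Or.inr (Or.inl h)
      · exact Or.inl h
      · exact Or.inr (Or.inr h)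
    · intro i hi
      have h1 : ℓ (vec (wt B i)) = 1 := by
        have := hℓ.weight B (i := i) (k := 1) (by rw [hi, Int.cast_one])
        rw [this, Int.cast_one]
      obtain ⟨h2, -⟩ := (hY _).1 ⟨(mem_Xw B).2 ⟨i, rfl⟩, h1⟩
      obtain ⟨α, hα⟩ := (mem_Ph _).1 h2
      exact ⟨α, (hext i α hα.symm).symm⟩
    · intro α hα
      have h1 : ℓ (vec (rt (rootSystem H) α)) = 1 := by
        have := hℓ.root (α := α) (k := 1) (by rw [hα, Int.cast_one])
        rw [this, Int.cast_one]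
      obtain ⟨h2, -⟩ := (hY _).2 ⟨(mem_Ph _).2 ⟨α, rfl⟩, h1⟩
      obtain ⟨i, hi⟩ := (mem_Xw B).1 h2
      exact ⟨i, hext i α hi⟩
  have hfin := PG.L.finrank_eq_root_card H
  -- the counts of the roots
  have e1 := ncard99 hℓ hrt 1
  have e0 := ncard99 hℓ hrt 0
  have h1s : {c | c ∈ Ph (rootSystem H) ∧ ℓ c = ((1 : ℤ) : ℝ)}.ncard = s := by
    rw [← hs]
    congr 1
    ext x
    rw [Set.mem_ofPred_eq, Set.mem_ofPred_eq, hY x, Int.cast_one]
  have hsplit := PG.L.card_roots_split y hrt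
  unfold Count at hc
  have hc0 : {c | c ∈ Ph (rootSystem H) ∧ ℓ.toAddMonoidHom c = 0}.ncard =
      Nat.card {α : H.root // α.1 y = 0} := by
    have h3 : {c | c ∈ Ph (rootSystem H) ∧ ℓ.toAddMonoidHom c = 0} =
        {c | c ∈ Ph (rootSystem H) ∧ ℓ c = ((0 : ℤ) : ℝ)} := by
      ext x
      rw [Set.mem_ofPred_eq, Set.mem_ofPred_eq, Int.cast_zero]
      rfl
    rw [h3, e0, Int.cast_zero]
  rw [hc0, ← hrank] at hc
  rw [h1s, Int.cast_one] at e1
  rw [hcard, hfin, hsplit, ← e1, ← hc]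
  ring

end PG
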