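import Pool.Agent.Helper99.PG.Zero
import Pool.Agent.Helper99.PG.Last
import Pool.Agent.Helper98.PG.Real
import Pool.Agent.Helper2.PG.End
import Pool.Agent.Helper2.PG.Bound

/-!
# Project PG: the configuration of type `C₃`
-/

open Module LieModule LieAlgebra LieAlgebra.IsKilling MTP.MF PF PF.CC

namespace PG

section euclid

variable {E : Type*} [NormedAddCommGroup E] [InnerProductSpace ℝ E] {Φ X : Finset E} {ℓ : E →+ ℝ} {ν : ℕ → E}

/-- The Gram matrix of the configuration. -/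
private theorem gram99 {a : ℝ} (hg : ∀ i < 3, ∀ j < 3, inner ℝ (ν i) (ν j) = if i = j then 2 * a else a) (j : ℕ)
    (hj : j < 3) : inner ℝ (ν 0 + ν 1 + ν 2 - (2 : ℝ) • ν j) (ν j) = (0 : ℝ) ∧
      inner ℝ (ν 0 + ν 1 + ν 2 - (2 : ℝ) • ν j) (ν 0 + ν 1 + ν 2 - (2 : ℝ) • ν j) = 4 * a := by
  have e : ∀ i < 3, ∀ j < 3, (inner ℝ (ν i) (ν j) : ℝ) = if i = j then 2 * a else a := hg
  have e00 := e 0 (by norm_num) 0 (by norm_num)
  have e01 := e 0 (by norm_num) 1 (by norm_num)
  have e02 := e 0 (by norm_num) 2 (by norm_num)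
  have e10 := e 1 (by norm_num) 0 (by norm_num)
  have e11 := e 1 (by norm_num) 1 (by norm_num)
  have e12 := e 1 (by norm_num) 2 (by norm_num)
  have e20 := e 2 (by norm_num) 0 (by norm_num)
  have e21 := e 2 (by norm_num) 1 (by norm_num)
  have e22 := e 2 (by norm_num) 2 (by norm_num)
  norm_num at e00 e01 e02 e10 e11 e12 e20 e21 e22
  simp only [inner_sub_left, inner_sub_right, inner_add_left, inner_add_right, inner_smul_left, inner_smul_right]
  interval_cases j
  · constructor <;> simp only [real_inner_self_eq_norm_sq, e00, e01, e02, e10, e11, e12, e20, e21, e22] <;> simp <;> ring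
  · constructor <;> simp only [real_inner_self_eq_norm_sq, e00, e01, e02, e10, e11, e12, e20, e21, e22] <;> simp <;> ring
  · constructor <;> simp only [real_inner_self_eq_norm_sq, e00, e01, e02, e10, e11, e12, e20, e21, e22] <;> simp <;> ring

/-- The weights of level 0. -/
theorem c3_level0 (h : Lev Φ ℓ) (hX : Sat Φ X) (hlev : ∀ x ∈ X, ℓ x ≤ 1)
    (hY : ∀ x, (x ∈ X ∧ ℓ x = 1) ↔ ∃ i < 3, x = ν i) (hC : IsC3 Φ ℓ ν) {x : E} (hx : x ∈ X) (hx0 : ℓ x = 0) :
    x = 0 ∨ ∃ i < 3, ∃ j < 3, i ≠ j ∧ x = ν i - ν j := by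
  by_contra hcon
  push Not at hcon
  obtain ⟨hne, hdiff⟩ := hcon
  obtain ⟨a, ha, hg, hone, hzero⟩ := hC
  -- a root of level 1 which is not orthogonal to `x`
  obtain ⟨g, hgΦ, hg1, hgx⟩ : ∃ g ∈ Φ, ℓ g = 1 ∧ inner ℝ x g ≠ (0 : ℝ) := by
    by_contra! hno
    apply hne
    have hall : ∀ c ∈ Φ, inner ℝ x c = (0 : ℝ) := by
      intro c hc
      rcases h.lev c hc with h1 | h1 | h1
      · obtain ⟨i, hi, j, hj, -, rfl⟩ := (hzero c).1 ⟨hc, h1⟩
        obtain ⟨hi1, hi2⟩ := (hone (ν i)).2 ⟨i, hi, Or.inl rfl⟩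
        obtain ⟨hj1, hj2⟩ := (hone (ν j)).2 ⟨j, hj, Or.inl rfl⟩
        rw [inner_sub_right, hno _ hi1 hi2, hno _ hj1 hj2, sub_zero]
      · exact hno c hc h1
      · have h2 := hno (-c) (h.toRS.neg_mem hc) (by rw [map_neg, h1, neg_neg])
        rw [inner_neg_right, neg_eq_zero] at h2
        exact h2
    have h1 : x - -x ∈ AddSubgroup.closure (Φ : Set E) := hX.coset x hx (-x) (hX.neg x hx)
    have h2 : ∀ z ∈ AddSubgroup.closure (Φ : Set E), inner ℝ x z = (0 : ℝ) := by
      intro z hz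
      induction hz using AddSubgroup.closure_induction with
      | mem c hc => exact hall c hc
      | zero => exact inner_zero_right _
      | add p q _ _ hp hq => rw [inner_add_right, hp, hq, add_zero]
      | neg p _ hp => rw [inner_neg_right, hp, neg_zero]
    have h3 := h2 _ h1
    rw [sub_neg_eq_add, inner_add_right] at h3
    have h4 : inner ℝ x x = (0 : ℝ) := by linarith
    exact inner_self_eq_zero.1 h4
  -- one more root brings `x` or `-x` to level 1
  have key : ∀ z ∈ X, ℓ z = 0 → inner ℝ z g < (0 : ℝ) → ∃ i < 3, z = ν i - g := by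
    intro z hz hz0 hneg
    obtain ⟨k, hk⟩ := hX.int _ (h.toRS.neg_mem hgΦ) z hz
    have h1 : (0 : ℝ) < co (-g) z := by
      have h2 : (0 : ℝ) < inner ℝ g g := real_inner_self_pos.2 (h.ne_zero g hgΦ)
      rw [co_neg_left]
      unfold co
      have : 2 * inner ℝ z g / inner ℝ g g < (0 : ℝ) := div_neg_of_neg_of_pos (by linarith) h2
      linarith
    rw [hk] at h1
    have h2 : 1 ≤ k := by
      have : 0 < k := by exact_mod_cast h1
      omega
    have h3 := hX.str _ (h.toRS.neg_mem hgΦ) z hz 1 (by rw [hk]; exact_mod_cast h2)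
    rw [Nat.cast_one, one_smul, sub_neg_eq_add] at h3
    obtain ⟨i, hi, h4⟩ := (hY _).1 ⟨h3, by rw [map_add, hz0, hg1, zero_add]⟩
    exact ⟨i, hi, by rw [← h4]; abel⟩
  -- the exclusion of one case
  have hex : ∀ j < 3, ν j - (ν 0 + ν 1 + ν 2 - (2 : ℝ) • ν j) ∉ X := by
    intro j hj hmem
    obtain ⟨hg', hg1'⟩ := (hone (ν 0 + ν 1 + ν 2 - (2 : ℝ) • ν j)).2 ⟨j, hj, Or.inr rfl⟩
    obtain ⟨e1, e2⟩ := gram99 hg j hj
    have h1 := sat_refl h.toRS hX hg' hmem
    have h2 : co (ν 0 + ν 1 + ν 2 - (2 : ℝ) • ν j) (ν j - (ν 0 + ν 1 + ν 2 - (2 : ℝ) • ν j)) = -2 := by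
      unfold co
      rw [inner_sub_left (ν j), real_inner_comm, e1, e2]
      field_simp
      ring
    rw [h2] at h1
    have h3 := hlev _ h1
    obtain ⟨-, h4⟩ := (hone (ν j)).2 ⟨j, hj, Or.inl rfl⟩
    have h5 : ν j - (ν 0 + ν 1 + ν 2 - (2 : ℝ) • ν j) - (-2 : ℝ) • (ν 0 + ν 1 + ν 2 - (2 : ℝ) • ν j) =
        ν j + (ν 0 + ν 1 + ν 2 - (2 : ℝ) • ν j) := by
      module
    rw [h5, map_add, h4, hg1'] at h3
    norm_num at h3
  have main : ∀ z ∈ X, ℓ z = 0 → z ≠ 0 → inner ℝ z g < (0 : ℝ) → ∃ i < 3, ∃ j < 3, i ≠ j ∧ z = ν i - ν j := by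
    intro z hz hz0 hzne hneg
    obtain ⟨i, hi, hzi⟩ := key z hz hz0 hneg
    obtain ⟨j, hj, hgj⟩ := (hone g).1 ⟨hgΦ, hg1⟩
    rcases hgj with hgj | hgj
    · refine ⟨i, hi, j, hj, ?_, by rw [hzi, hgj]⟩
      rintro rfl
      exact hzne (by rw [hzi, hgj, sub_self])
    · have hij : i ≠ j := by
        rintro rfl
        rw [hgj] at hzi
        exact hex i hi (hzi ▸ hz)
      obtain ⟨k, hk, hki, hkj⟩ : ∃ k < 3, k ≠ i ∧ k ≠ j := by
        clear * - hi hj
        revert i j
        decide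
      refine ⟨j, hj, k, hk, hkj.symm, ?_⟩
      have hsum : ν 0 + ν 1 + ν 2 = ν i + ν j + ν k := by
        clear * - hi hj hk hij hki hkj
        interval_cases i <;> interval_cases j <;> interval_cases k <;> first | omega | abel
      rw [hzi, hgj, hsum]
      module
  rcases lt_or_gt_of_ne hgx with h1 | h1
  · obtain ⟨i, hi, j, hj, hij, h2⟩ := main x hx hx0 hne h1
    exact hdiff i hi j hj hij h2
  · obtain ⟨i, hi, j, hj, hij, h2⟩ := main (-x) (hX.neg x hx) (by rw [map_neg, hx0, neg_zero])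
      (neg_ne_zero.2 hne) (by rw [inner_neg_left]; linarith)
    refine hdiff j hj i hi hij.symm ?_
    rw [← neg_neg x, h2]
    abel

/-- The norms of the roots. -/
private theorem norm99 (h : Lev Φ ℓ) {a : ℝ} (hg : ∀ i < 3, ∀ j < 3, inner ℝ (ν i) (ν j) = if i = j then 2 * a else a)
    (hone : ∀ g, (g ∈ Φ ∧ ℓ g = 1) ↔ ∃ i < 3, g = ν i ∨ g = ν 0 + ν 1 + ν 2 - (2 : ℝ) • ν i)
    (hzero : ∀ c, (c ∈ Φ ∧ ℓ c = 0) ↔ ∃ i < 3, ∃ j < 3, i ≠ j ∧ c = ν i - ν j) {c : E} (hc : c ∈ Φ) :
    inner ℝ c c = 2 * a ∨ inner ℝ c c = 4 * a := by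
  have h1 : ∀ g ∈ Φ, ℓ g = 1 → inner ℝ g g = 2 * a ∨ inner ℝ g g = 4 * a := by
    intro g hgΦ hg1
    obtain ⟨i, hi, rfl | rfl⟩ := (hone g).1 ⟨hgΦ, hg1⟩
    · left
      rw [hg i hi i hi, if_pos rfl]
    · right
      exact (gram99 hg i hi).2
  rcases h.lev c hc with h2 | h2 | h2
  · obtain ⟨i, hi, j, hj, hij, rfl⟩ := (hzero c).1 ⟨hc, h2⟩
    left
    rw [inner_sub_left, inner_sub_right, inner_sub_right, hg i hi i hi, hg i hi j hj, hg j hj i hi, hg j hj j hj,
      if_pos rfl, if_neg hij, if_neg hij.symm, if_pos rfl]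
    ring
  · exact h1 c hc h2
  · have h3 := h1 (-c) (h.toRS.neg_mem hc) (by rw [map_neg, h2, neg_neg])
    rwa [inner_neg_left, inner_neg_right, neg_neg] at h3

/-- The pairings of the roots. -/
private theorem pair99 (h : Lev Φ ℓ) (hC : IsC3 Φ ℓ ν) {c d : E} (hc : c ∈ Φ) (hd : d ∈ Φ) {k : ℤ} (hk : co c d = k) :
    |k| ≤ 2 := by
  obtain ⟨a, ha, hg, hone, hzero⟩ := hC
  have h1 := norm99 h hg hone hzero hc
  have h2 := norm99 h hg hone hzero hd
  have h3 : 2 * a ≤ inner ℝ c c := by rcases h1 with h | h <;> rw [h]; linarith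
  have h4 : inner ℝ d d ≤ 4 * a := by rcases h2 with h | h <;> rw [h]; linarith
  have hcs : (inner ℝ d c : ℝ) * inner ℝ d c ≤ inner ℝ d d * inner ℝ c c := real_inner_mul_inner_self_le d c
  have hpos : (0 : ℝ) < inner ℝ c c := by linarith
  have h5 : (k : ℝ) * inner ℝ c c = 2 * inner ℝ d c := by
    rw [← hk]
    exact co_mul (h.ne_zero c hc)
  have h6 : (k : ℝ) ^ 2 * (inner ℝ c c : ℝ) ≤ 4 * inner ℝ d d := by
    have h7 : ((k : ℝ) ^ 2 * (inner ℝ c c : ℝ)) * inner ℝ c c ≤ (4 * inner ℝ d d) * inner ℝ c c := by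
      calc ((k : ℝ) ^ 2 * (inner ℝ c c : ℝ)) * inner ℝ c c = ((k : ℝ) * inner ℝ c c) * ((k : ℝ) * inner ℝ c c) := by ring
        _ = 4 * ((inner ℝ d c : ℝ) * inner ℝ d c) := by rw [h5]; ring
        _ ≤ 4 * (inner ℝ d d * inner ℝ c c) := by linarith
        _ = (4 * inner ℝ d d) * inner ℝ c c := by ring
    exact le_of_mul_le_mul_right h7 hpos
  have h8 : (k : ℝ) ^ 2 * (2 * a) ≤ 16 * a := by
    calc (k : ℝ) ^ 2 * (2 * a) ≤ (k : ℝ) ^ 2 * (inner ℝ c c : ℝ) := mul_le_mul_of_nonneg_left h3 (sq_nonneg _)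
      _ ≤ 4 * inner ℝ d d := h6
      _ ≤ 16 * a := by linarith
  have h9 : (k : ℝ) ^ 2 ≤ 8 := by
    have : (k : ℝ) ^ 2 * (2 * a) ≤ 8 * (2 * a) := by linarith
    exact le_of_mul_le_mul_right this (by linarith)
  have h10 : k ^ 2 ≤ 8 := by exact_mod_cast h9
  rw [abs_le]
  constructor <;> nlinarith

/-- The numbers of roots. -/
private theorem ncard_le99 (hC : IsC3 Φ ℓ ν) :
    {c | c ∈ Φ ∧ ℓ c = 1}.ncard ≤ 6 ∧ {c | c ∈ Φ ∧ ℓ c = 0}.ncard ≤ 6 := by
  classical
  obtain ⟨a, ha, hg, hone, hzero⟩ := hC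
  constructor
  · have h1 : {c | c ∈ Φ ∧ ℓ c = 1} ⊆ ((Finset.univ.image fun p : Fin 3 × Bool =>
        if p.2 then ν p.1 else ν 0 + ν 1 + ν 2 - (2 : ℝ) • ν p.1 : Finset E) : Set E) := by
      rintro c hc
      obtain ⟨i, hi, rfl | rfl⟩ := (hone c).1 hc
      · rw [Finset.mem_coe, Finset.mem_image]
        exact ⟨(⟨i, hi⟩, true), Finset.mem_univ _, by simp⟩
      · rw [Finset.mem_coe, Finset.mem_image]
        exact ⟨(⟨i, hi⟩, false), Finset.mem_univ _, by simp⟩
    refine (Set.ncard_le_ncard h1 (Finset.finite_toSet _)).trans ?_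
    rw [Set.ncard_coe_finset]
    refine Finset.card_image_le.trans ?_
    simp
  · have h1 : {c | c ∈ Φ ∧ ℓ c = 0} ⊆ (((Finset.univ : Finset (Fin 3)).offDiag.image fun p : Fin 3 × Fin 3 =>
        ν p.1 - ν p.2 : Finset E) : Set E) := by
      rintro c hc
      obtain ⟨i, hi, j, hj, hij, rfl⟩ := (hzero c).1 hc
      rw [Finset.mem_coe, Finset.mem_image]
      refine ⟨(⟨i, hi⟩, ⟨j, hj⟩), ?_, rfl⟩
      rw [Finset.mem_offDiag]
      exact ⟨Finset.mem_univ _, Finset.mem_univ _, fun h => hij (congrArg Fin.val h)⟩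
    refine (Set.ncard_le_ncard h1 (Finset.finite_toSet _)).trans ?_
    rw [Set.ncard_coe_finset]
    refine Finset.card_image_le.trans ?_
    simp [Finset.offDiag_card]

end euclid

variable {K : Type*} [Field K] [CharZero K] [IsAlgClosed K]
  {L : Type*} [LieRing L] [LieAlgebra K L] [FiniteDimensional K L] [IsKilling K L]
  {H : LieSubalgebra K L} [H.IsCartanSubalgebra]
  {V : Type*} [AddCommGroup V] [Module K V] [FiniteDimensional K V]
  [LieRingModule L V] [LieModule K L V] {I : Type*} [Fintype I]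

/-- The multiplicities are invariant under the reflections. -/
private theorem mult_refl99 [DecidableEq (Dual K H)] (B : WB (V := V) H I) (α : H.root) (μ : Dual K H) :
    (Finset.univ.filter fun i => B.w i = (rootSystem H).reflection α μ).card =
      (Finset.univ.filter fun i => B.w i = μ).card := by
  have h1 := congrArg (fun F => F.coeff ((rootSystem H).reflection α μ)) (PF.L.act_chi B α)
  simp only [PF.W.act_coeff, LinearEquiv.symm_apply_apply] at h1
  rw [PF.L.chi_coeff, PF.L.chi_coeff] at h1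
  exact_mod_cast h1.symm

/-- The configuration of type `C₃`: the number of weights of level 0. -/
theorem c3_count [LieAlgebra.IsSimple K L] (B : WB (V := V) H I)
    (hirr : ∀ W : Submodule K V, (∀ x : L, ∀ u ∈ W, ⁅x, u⁆ ∈ W) → W = ⊥ ∨ W = ⊤)
    (hfaith : ∀ x : L, (∀ u : V, ⁅x, u⁆ = 0) → x = 0)
    {y : H} {ℓ : EuclideanSpace ℝ H.root →ₗ[ℝ] ℝ} (hℓ : IsLev y ℓ)
    (hrt : ∀ α : H.root, Three (α.1 y)) (hw : ∀ i, Three (B.w i y))
    (hL : Lev (Ph (rootSystem H)) ℓ.toAddMonoidHom) (hS : Sat (Ph (rootSystem H)) (Xw B))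
    {ν : ℕ → EuclideanSpace ℝ H.root} (hY : ∀ x, (x ∈ Xw B ∧ ℓ x = 1) ↔ ∃ i < 3, x = ν i)
    (hC : IsC3 (Ph (rootSystem H)) ℓ.toAddMonoidHom ν)
    (h1 : Nat.card {i // B.w i y = 1} = 3) (h2 : Nat.card {i // B.w i y = -1} = 3) :
    Nat.card {i // B.w i y = 0} = 6 ∨ Nat.card {i // B.w i y = 0} = 8 ∨ Nat.card {i // B.w i y = 0} = 9 := by
  classical
  have hlev : ∀ x ∈ Xw B, ℓ.toAddMonoidHom x ≤ 1 := by
    intro x hx
    rcases hℓ.lev_X B hw hx with h | h | h
    · change ℓ x ≤ 1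
      rw [h]
      norm_num
    · change ℓ x ≤ 1
      rw [h]
    · change ℓ x ≤ 1
      rw [h]
      norm_num
  have hY' : ∀ x, (x ∈ Xw B ∧ ℓ.toAddMonoidHom x = 1) ↔ ∃ i < 3, x = ν i := hY
  have hC' := hC
  obtain ⟨a, ha, hg, hone, hzero⟩ := hC'
  -- the weights of level 1
  have ht : ∀ k : Fin 3, ∃ i, vec (wt B i) = ν k := fun k =>
    (mem_Xw B).1 ((hY (ν k)).2 ⟨k, k.2, rfl⟩).1
  choose t ht using ht
  have hα : ∀ k : Fin 3, ∃ α : H.root, vec (rt (rootSystem H) α) = ν k := fun k =>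
    (mem_Ph _).1 ((hone (ν k)).2 ⟨k, k.2, Or.inl rfl⟩).1
  choose r hr using hα
  have hroot : ∀ k, (rootSystem H).root (r k) = B.w (t k) := by
    intro k
    have e1 : wt B (t k) = rt (rootSystem H) (r k) := vec_inj ((ht k).trans (hr k).symm)
    symm
    refine dual_ext fun β => ?_
    rw [wt_spec B (t k) β, e1]
    exact (rt_spec (r k) β).symm
  have hgram : ∀ j k : Fin 3, inner ℝ (ν j) (ν k) = if j = k then 2 * a else a := by
    intro j k
    rw [hg j j.2 k k.2]
    by_cases hjk : j = k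
    · rw [if_pos hjk, if_pos (congrArg Fin.val hjk)]
    · rw [if_neg hjk, if_neg (fun h => hjk (Fin.ext h))]
  have hνinj : ∀ j k : Fin 3, ν j = ν k → j = k := by
    intro j k h
    by_contra hjk
    have e1 := hgram j k
    have e2 := hgram k k
    rw [h, e2, if_pos rfl, if_neg hjk] at e1
    linarith
  have htinj : Function.Injective t := by
    intro j k h
    apply hνinj
    rw [← ht j, ← ht k, h]
  have hty : ∀ k, B.w (t k) y = 1 := by
    intro k
    have e1 : ℓ (vec (wt B (t k))) = ((1 : ℤ) : ℝ) := by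
      rw [ht k, Int.cast_one]
      exact ((hY (ν k)).2 ⟨k, k.2, rfl⟩).2
    obtain ⟨m, hm, -⟩ := (hw (t k)).int
    have e2 := (hℓ.weight_iff B ⟨m, hm⟩ 1).1 e1
    rw [e2, Int.cast_one]
  have hrange : ∀ i, B.w i y = 1 → ∃ k, t k = i := by
    intro i hi
    let f : Fin 3 → {i // B.w i y = 1} := fun k => ⟨t k, hty k⟩
    have hf : Function.Injective f := fun j k h => htinj (congrArg Subtype.val h)
    have hb : Function.Bijective f := by
      rw [Fintype.bijective_iff_injective_and_card]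
      refine ⟨hf, ?_⟩
      rw [Fintype.card_fin, ← Nat.card_eq_fintype_card, h1]
    obtain ⟨k, hk⟩ := hb.2 ⟨i, hi⟩
    exact ⟨k, congrArg Subtype.val hk⟩
  have hmult1 : ∀ k, (Finset.univ.filter fun i => B.w i = B.w (t k)).card = 1 := by
    intro k
    rw [Finset.card_eq_one]
    refine ⟨t k, ?_⟩
    ext i
    simp only [Finset.mem_filter, Finset.mem_univ, true_and, Finset.mem_singleton]
    constructor
    · intro hi
      obtain ⟨l, rfl⟩ := hrange i (by rw [hi, hty])
      have e1 : wt B (t l) = wt B (t k) := by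
        funext β
        have e2 := wt_spec B (t l) β
        have e3 := wt_spec B (t k) β
        rw [hi, e3] at e2
        exact_mod_cast e2.symm
      have e4 : ν l = ν k := by rw [← ht l, ← ht k, e1]
      rw [hνinj l k e4]
    · rintro rfl
      rfl
  -- the differences
  have hmultd : ∀ j k : Fin 3, j ≠ k →
      (Finset.univ.filter fun i => B.w i = B.w (t j) - B.w (t k)).card = 1 := by
    intro j k hjk
    have e1 : (wt B (t j) (r k) : ℝ) = 1 := by
      rw [← co_vec (rootSystem H) (wt_wt B (t j)) (r k), hr k, ht j]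
      unfold co
      rw [hgram j k, hgram k k, if_neg hjk, if_pos rfl]
      field_simp
    have e2 : wt B (t j) (r k) = 1 := by exact_mod_cast e1
    have e3 : (rootSystem H).reflection (r k) (B.w (t j)) = B.w (t j) - B.w (t k) := by
      have e4 : (rootSystem H).reflection (r k) (B.w (t j)) =
          B.w (t j) - (B.w (t j) (coroot (r k).1)) • (rootSystem H).root (r k) :=
        (rootSystem H).reflection_apply (r k) (B.w (t j))
      rw [e4, wt_spec B (t j) (r k), e2, Int.cast_one, one_smul, hroot]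
    rw [← e3]
    exact (mult_refl99 B (r k) (B.w (t j))).trans (hmult1 j)
  let δ : Fin 3 × Fin 3 → Dual K H := fun p => B.w (t p.1) - B.w (t p.2)
  have hδy : ∀ p, δ p y = 0 := fun p => by
    change B.w (t p.1) y - B.w (t p.2) y = 0
    rw [hty, hty, sub_self]
  -- inner products of the differences
  have hδinner : ∀ p q : Fin 3 × Fin 3, δ p = δ q → ν p.1 - ν p.2 = ν q.1 - ν q.2 := by
    intro p q h
    have e1 : wt B (t p.1) - wt B (t p.2) = wt B (t q.1) - wt B (t q.2) := by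
      funext β
      have e2 : δ p (coroot β.1) = δ q (coroot β.1) := by rw [h]
      change B.w (t p.1) (coroot β.1) - B.w (t p.2) (coroot β.1) =
        B.w (t q.1) (coroot β.1) - B.w (t q.2) (coroot β.1) at e2
      rw [wt_spec, wt_spec, wt_spec, wt_spec] at e2
      have e3 : wt B (t p.1) β - wt B (t p.2) β = wt B (t q.1) β - wt B (t q.2) β := by exact_mod_cast e2
      exact e3
    have e4 : ∀ f g : H.root → ℤ, vec (f - g) = vec f - vec g := by
      intro f g
      rw [sub_eq_add_neg, vec_add, vec_neg, sub_eq_add_neg]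
    rw [← ht, ← ht, ← ht, ← ht, ← e4, ← e4, e1]
  have hinn : ∀ (p : Fin 3 × Fin 3) (l : Fin 3), inner ℝ (ν p.1 - ν p.2) (ν l) =
      a * ((if p.1 = l then 1 else 0) - (if p.2 = l then 1 else 0)) := by
    intro p l
    rw [inner_sub_left, hgram, hgram]
    split_ifs <;> ring
  have hδne : ∀ p ∈ (Finset.univ : Finset (Fin 3)).offDiag, δ p ≠ 0 := by
    intro p hp h
    rw [Finset.mem_offDiag] at hp
    have e1 : ν p.1 - ν p.2 = ν p.1 - ν p.1 := hδinner p (p.1, p.1) (by
      rw [h]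
      change 0 = B.w (t p.1) - B.w (t p.1)
      rw [sub_self])
    have e2 := hinn p p.1
    rw [e1, sub_self, inner_zero_left, if_pos rfl, if_neg (Ne.symm hp.2.2)] at e2
    linarith
  have hδinj : Set.InjOn δ ((Finset.univ : Finset (Fin 3)).offDiag : Set (Fin 3 × Fin 3)) := by
    rintro p hp q hq h
    rw [Finset.mem_coe, Finset.mem_offDiag] at hp hq
    have e1 := hδinner p q h
    have e2 : ∀ l : Fin 3, ((if p.1 = l then 1 else 0) - (if p.2 = l then 1 else 0) : ℝ) =
        (if q.1 = l then 1 else 0) - (if q.2 = l then 1 else 0) := by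
      intro l
      have e3 := hinn p l
      rw [e1, hinn q l] at e3
      exact (mul_left_cancel₀ ha.ne' e3).symm
    obtain ⟨p1, p2⟩ := p
    obtain ⟨q1, q2⟩ := q
    simp only at e2 hp hq
    have e4 : p1 = q1 := by
      have e5 := e2 p1
      rw [if_pos rfl, if_neg (Ne.symm hp.2.2)] at e5
      by_contra hne
      rw [if_neg (Ne.symm hne)] at e5
      split_ifs at e5 <;> norm_num at e5
    have e6 : p2 = q2 := by
      have e5 := e2 p2
      rw [if_pos rfl, if_neg hp.2.2] at e5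
      by_contra hne
      rw [if_neg (Ne.symm hne)] at e5
      split_ifs at e5 <;> norm_num at e5
    rw [e4, e6]
  -- the weights of level 0
  have hzw : ∀ i, B.w i y = 0 → B.w i ∈ insert (0 : Dual K H) ((Finset.univ : Finset (Fin 3)).offDiag.image δ) := by
    intro i hi
    have e1 : ℓ (vec (wt B i)) = 0 := by
      have := hℓ.weight B (i := i) (k := 0) (by rw [hi, Int.cast_zero])
      rw [this, Int.cast_zero]
    rcases c3_level0 hL hS hlev hY' hC ((mem_Xw B).2 ⟨i, rfl⟩) e1 with h | ⟨j, hj, k, hk, hjk, h⟩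
    · rw [Finset.mem_insert]
      left
      refine dual_ext fun β => ?_
      have e2 : wt B i = 0 := by
        apply vec_inj
        rw [h, vec_zero]
      rw [wt_spec B i β, e2, LinearMap.zero_apply]
      simp
    · rw [Finset.mem_insert, Finset.mem_image]
      right
      refine ⟨(⟨j, hj⟩, ⟨k, hk⟩), ?_, ?_⟩
      · rw [Finset.mem_offDiag]
        exact ⟨Finset.mem_univ _, Finset.mem_univ _, fun h => hjk (congrArg Fin.val h)⟩
      · symm
        refine dual_ext fun β => ?_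
        have e2 : vec (wt B i) = vec (wt B (t ⟨j, hj⟩)) - vec (wt B (t ⟨k, hk⟩)) := by
          rw [h, ht, ht]
        have e3 : wt B i = wt B (t ⟨j, hj⟩) - wt B (t ⟨k, hk⟩) := by
          apply vec_inj
          rw [e2, sub_eq_add_neg (wt B (t ⟨j, hj⟩)), vec_add, vec_neg, sub_eq_add_neg]
        change B.w i (coroot β.1) = B.w (t ⟨j, hj⟩) (coroot β.1) - B.w (t ⟨k, hk⟩) (coroot β.1)
        rw [wt_spec, wt_spec, wt_spec, e3, Pi.sub_apply, Int.cast_sub]
  have hcount : Nat.card {i // B.w i y = 0} = Nat.card {i // B.w i = 0} + 6 := by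
    rw [Nat.card_eq_fintype_card, Nat.card_eq_fintype_card, Fintype.card_subtype, Fintype.card_subtype]
    rw [Finset.card_eq_sum_card_fiberwise (f := B.w)
      (t := insert (0 : Dual K H) ((Finset.univ : Finset (Fin 3)).offDiag.image δ)) (fun i hi => hzw i (by simpa using hi))]
    rw [Finset.sum_insert, Finset.sum_image hδinj]
    · have e1 : ∀ χ : Dual K H, χ y = 0 → ((Finset.univ.filter fun i => B.w i y = 0).filter fun i => B.w i = χ) =
          Finset.univ.filter fun i => B.w i = χ := by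
        intro χ hχ
        ext i
        simp only [Finset.mem_filter, Finset.mem_univ, true_and, and_iff_right_iff_imp]
        intro h
        rw [h, hχ]
      have e2 : ∑ p ∈ (Finset.univ : Finset (Fin 3)).offDiag,
          ((Finset.univ.filter fun i => B.w i y = 0).filter fun i => B.w i = δ p).card = 6 := by
        rw [Finset.sum_congr rfl fun p hp => (congrArg Finset.card (e1 (δ p) (hδy p))).trans
          (hmultd p.1 p.2 (Finset.mem_offDiag.1 hp).2.2)]
        simp [Finset.offDiag_card]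
      rw [e1 0 (LinearMap.zero_apply _), e2]
    · rw [Finset.mem_image]
      rintro ⟨p, hp, h⟩
      exact hδne p hp h
  have hV : ∀ i, B.w i y = 0 ∨ B.w i y = 1 ∨ B.w i y = -1 := hw
  have hR : ∀ α : H.root, α.1 y = 0 ∨ α.1 y = 1 ∨ α.1 y = -1 := hrt
  have hm0 := PG.L.zero_mult_le B hirr y hV hR ⟨t 0, hty 0⟩
  rw [h1] at hm0
  -- one is excluded
  have hm1 : Nat.card {i // B.w i = 0} ≠ 1 := by
    intro hm
    have hn := PG.L.card_weights_split B y hV
    rw [h1, h2, hcount, hm] at hn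
    obtain ⟨α, i, k, hk, hle⟩ := PF.L.exists_large B hirr hfaith (p := 13) (by norm_num)
      (by rw [hn]) ⟨t 0⟩
    have e1 : wt B i α = k := by
      have := wt_spec B i α
      rw [hk] at this
      exact_mod_cast this.symm
    have e2 := hL.abs_co_le hS hlev ((mem_Ph _).2 ⟨α, rfl⟩) ((mem_Xw B).2 ⟨i, rfl⟩)
    rw [co_vec (rootSystem H) (wt_wt B i) α, e1] at e2
    have e3 : (k : ℝ) ≤ 2 := (le_abs_self _).trans e2
    have e4 : (k : ℚ) ≤ 2 := by exact_mod_cast e3
    have e5 : ∀ g : H.root, |((rootSystem H).pairingIn ℤ g α : ℚ)| ≤ 2 := by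
      intro g
      have h3 : co (vec (rt (rootSystem H) α)) (vec (rt (rootSystem H) g)) = ((rt (rootSystem H) g α : ℤ) : ℝ) :=
        co_vec (rootSystem H) (wt_rt (rootSystem H) g) α
      have h4 := pair99 hL hC ((mem_Ph _).2 ⟨α, rfl⟩) ((mem_Ph _).2 ⟨g, rfl⟩) h3
      have h5 : |(rootSystem H).pairingIn ℤ g α| ≤ 2 := h4
      exact_mod_cast h5
    have e6 : ∑ g : H.root, |((rootSystem H).pairingIn ℤ g α : ℚ)| ≤ Fintype.card H.root * 2 := by
      have := Finset.sum_le_card_nsmul (Finset.univ : Finset H.root)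
        (fun g => |((rootSystem H).pairingIn ℤ g α : ℚ)|) 2 (fun g _ => e5 g)
      rw [nsmul_eq_mul, Finset.card_univ] at this
      exact this
    have e7 := PG.L.card_roots_split y hR
    obtain ⟨n1, n0⟩ := ncard_le99 hC
    have c1 := ncard_roots hℓ hrt 1
    have c0 := ncard_roots hℓ hrt 0
    rw [Int.cast_one, Int.cast_one] at c1
    rw [Int.cast_zero, Int.cast_zero] at c0
    have n1' : {c | c ∈ Ph (rootSystem H) ∧ ℓ c = 1}.ncard ≤ 6 := n1
    have n0' : {c | c ∈ Ph (rootSystem H) ∧ ℓ c = 0}.ncard ≤ 6 := n0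
    rw [c1] at n1'
    rw [c0] at n0'
    have e8 : Fintype.card H.root ≤ 18 := by omega
    have e9 : (Fintype.card H.root : ℚ) ≤ 18 := by exact_mod_cast e8
    push_cast at hle
    linarith
  omega

end PG
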