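import Pool.Agent.Helper99.PG.Num

/-!
# Project PG: the multiplicity of the zero weight is at most the number of weights of degree one
-/

open Module LieModule LieAlgebra LieAlgebra.IsKilling MTP.MF

namespace PG.L

section ring

variable {L V : Type*} [LieRing L] [AddCommGroup V] [LieRingModule L V] {y : L}

/-- Vectors of degree 0 killed by the elements of degree 1. -/
private def T099 (y : L) (u : V) : Prop := ⁅y, u⁆ = 0 ∧ ∀ x : L, ⁅y, x⁆ = x → ⁅x, u⁆ = 0

/-- Vectors of degree -1 mapped by the elements of degree 1 to such vectors. -/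
private def Tm99 (y : L) (u : V) : Prop := ⁅y, u⁆ = -u ∧ ∀ x : L, ⁅y, x⁆ = x → T099 y ⁅x, u⁆

private theorem T0_add99 {u v : V} (hu : T099 y u) (hv : T099 y v) : T099 y (u + v) :=
  ⟨by rw [lie_add, hu.1, hv.1, add_zero], fun x hx => by rw [lie_add, hu.2 x hx, hv.2 x hx, add_zero]⟩

private theorem Tm_add99 {u v : V} (hu : Tm99 y u) (hv : Tm99 y v) : Tm99 y (u + v) :=
  ⟨by rw [lie_add, hu.1, hv.1, neg_add], fun x hx => by rw [lie_add]; exact T0_add99 (hu.2 x hx) (hv.2 x hx)⟩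

private theorem T0_zero99 : T099 y (0 : V) := ⟨lie_zero _, fun _ _ => lie_zero _⟩

private theorem Tm_zero99 : Tm99 y (0 : V) := ⟨by rw [lie_zero, neg_zero], fun _ _ => by rw [lie_zero]; exact T0_zero99⟩

private theorem T0_L099 {z : L} (hz : ⁅y, z⁆ = 0) {u : V} (hu : T099 y u) : T099 y ⁅z, u⁆ := by
  refine ⟨by rw [leibniz_lie, hz, hu.1, zero_lie, lie_zero, add_zero], fun x hx => ?_⟩
  have h1 : ⁅y, ⁅x, z⁆⁆ = ⁅x, z⁆ := by rw [leibniz_lie, hx, hz, lie_zero, add_zero]
  rw [leibniz_lie, hu.2 _ h1, hu.2 x hx, lie_zero, add_zero]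

private theorem T0_Lm99 {z : L} (hz : ⁅y, z⁆ = -z) {u : V} (hu : T099 y u) : Tm99 y ⁅z, u⁆ := by
  refine ⟨by rw [leibniz_lie, hz, hu.1, neg_lie, lie_zero, add_zero], fun x hx => ?_⟩
  have h1 : ⁅y, ⁅x, z⁆⁆ = 0 := by rw [leibniz_lie, hx, hz, lie_neg, add_neg_cancel]
  rw [leibniz_lie, hu.2 x hx, lie_zero, add_zero]
  exact T0_L099 h1 hu

private theorem Tm_L099 {z : L} (hz : ⁅y, z⁆ = 0) {u : V} (hu : Tm99 y u) : Tm99 y ⁅z, u⁆ := by
  refine ⟨by rw [leibniz_lie, hz, hu.1, zero_lie, lie_neg, zero_add], fun x hx => ?_⟩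
  have h1 : ⁅y, ⁅x, z⁆⁆ = ⁅x, z⁆ := by rw [leibniz_lie, hx, hz, lie_zero, add_zero]
  rw [leibniz_lie]
  exact T0_add99 (hu.2 _ h1) (T0_L099 hz (hu.2 x hx))

end ring

variable {K : Type*} [Field K] [CharZero K] [IsAlgClosed K]
  {L : Type*} [LieRing L] [LieAlgebra K L] [FiniteDimensional K L] [IsKilling K L]
  {H : LieSubalgebra K L} [H.IsCartanSubalgebra]
  {V : Type*} [AddCommGroup V] [Module K V] [FiniteDimensional K V]
  [LieRingModule L V] [LieModule K L V] {I : Type*} [Fintype I]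

/-- In a module with the degrees 1, 0, -1 a vector of degree 0 killed by the root vectors of degree 1 is zero. -/
theorem eq_zero_of_killed [LieAlgebra.IsSimple K L] (B : WB (V := V) H I)
    (hirr : ∀ W : Submodule K V, (∀ x : L, ∀ u ∈ W, ⁅x, u⁆ ∈ W) → W = ⊥ ∨ W = ⊤) (h0 : H)
    (hV : ∀ i, B.w i h0 = 0 ∨ B.w i h0 = 1 ∨ B.w i h0 = -1)
    (hL : ∀ α : H.root, α.1 h0 = 0 ∨ α.1 h0 = 1 ∨ α.1 h0 = -1)
    (hne : ∃ i, B.w i h0 = 1) {u : V} (hu0 : ⁅(h0 : L), u⁆ = 0)
    (hu : ∀ α : H.root, α.1 h0 = 1 → ∀ x ∈ rootSpace H α.1, ⁅x, u⁆ = 0) : u = 0 := by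
  classical
  -- eigenvalues other than 1, 0, -1 do not occur
  have hval : ∀ (c : K) (v : V), c ≠ 0 → c ≠ 1 → c ≠ -1 → ⁅(h0 : L), v⁆ = c • v → v = 0 := by
    intro c v c0 c1 c2 hv
    apply B.v.repr.injective
    rw [map_zero]
    ext i
    by_contra hi
    have h1 := B.coord hv hi
    rcases hV i with h | h | h
    · exact c0 (h1.symm.trans h)
    · exact c1 (h1.symm.trans h)
    · exact c2 (h1.symm.trans h)
  -- the elements of degree 1
  have hu1 : ∀ x : L, ⁅(h0 : L), x⁆ = x → ⁅x, u⁆ = 0 := by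
    intro x hx
    obtain ⟨n', ⟨B'⟩⟩ := exists_WB (V := L) (H := H) (adj_irr (K := K) (L := L))
    rw [← B'.v.sum_repr x, sum_lie]
    refine Finset.sum_eq_zero fun i _ => ?_
    rw [smul_lie]
    by_cases hi : B'.v.repr x i = 0
    · rw [hi, zero_smul]
    · have h1 : B'.w i h0 = 1 := B'.coord (c := 1) (by rw [hx, one_smul]) hi
      rcases adj_w B' i with h2 | ⟨α, hα⟩
      · rw [h2, LinearMap.zero_apply] at h1
        exact absurd h1 zero_ne_one
      · have h3 : α.1 h0 = 1 := by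
          have : (rootSystem H).root α h0 = α.1 h0 := rfl
          rw [← this, ← hα, h1]
        have h4 : B'.v i ∈ rootSpace H α.1 := by
          apply weightSpace_le_genWeightSpace L
          rw [mem_weightSpace]
          intro h
          have h5 := B'.lie_v i h
          rw [hα] at h5
          exact h5
        rw [hu α h3 _ h4, smul_zero]
  have hT0 : T099 (h0 : L) u := ⟨hu0, hu1⟩
  let W : Submodule K V :=
    { carrier := {v | ∃ a b : V, v = a + b ∧ T099 (h0 : L) a ∧ Tm99 (h0 : L) b}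
      add_mem' := by
        rintro _ _ ⟨a, b, rfl, ha, hb⟩ ⟨a', b', rfl, ha', hb'⟩
        exact ⟨a + a', b + b', by abel, T0_add99 ha ha', Tm_add99 hb hb'⟩
      zero_mem' := ⟨0, 0, by rw [add_zero], T0_zero99, Tm_zero99⟩
      smul_mem' := by
        rintro c _ ⟨a, b, rfl, ha, hb⟩
        refine ⟨c • a, c • b, by rw [smul_add], ⟨by rw [lie_smul, ha.1, smul_zero], fun x hx => by
          rw [lie_smul, ha.2 x hx, smul_zero]⟩, ⟨by rw [lie_smul, hb.1, smul_neg], fun x hx => ?_⟩⟩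
        rw [lie_smul]
        exact ⟨by rw [lie_smul, (hb.2 x hx).1, smul_zero], fun z hz => by rw [lie_smul, (hb.2 x hx).2 z hz, smul_zero]⟩ }
  have hW : ∀ x : L, ∀ v ∈ W, ⁅x, v⁆ ∈ W := by
    rintro x _ ⟨a, b, rfl, ha, hb⟩
    let X : Submodule K L :=
      { carrier := {x | ⁅x, a + b⁆ ∈ W}
        add_mem' := by
          intro p q hp hq
          simp only [Set.mem_ofPred_eq, add_lie] at *
          exact add_mem hp hq
        zero_mem' := by simp
        smul_mem' := by
          intro c p hp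
          simp only [Set.mem_ofPred_eq, smul_lie] at *
          exact Submodule.smul_mem _ _ hp }
    refine root_induction (U := X) (H := H) ?_ x
    intro α z hz
    have hz' : ⁅(h0 : L), z⁆ = α h0 • z := lie_eq_smul_of_mem_rootSpace hz h0
    have hα : α h0 = 0 ∨ α h0 = 1 ∨ α h0 = -1 := by
      by_cases h : α.IsZero
      · left
        exact congrFun h h0
      · have hmem : α ∈ H.root := by simpa [LieSubalgebra.root] using h
        exact hL ⟨α, hmem⟩
    change ⁅z, a + b⁆ ∈ W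
    rw [lie_add]
    rcases hα with h | h | h
    · rw [h, zero_smul] at hz'
      exact ⟨_, _, rfl, T0_L099 hz' ha, Tm_L099 hz' hb⟩
    · rw [h, one_smul] at hz'
      exact ⟨⁅z, b⁆, 0, by rw [ha.2 z hz', zero_add, add_zero], hb.2 z hz', Tm_zero99⟩
    · rw [h, neg_one_smul] at hz'
      have h1 : ⁅z, b⁆ = 0 := by
        apply hval (-2)
        · norm_num
        · norm_num
        · norm_num
        · rw [leibniz_lie, hz', hb.1, neg_lie, lie_neg]
          module
      exact ⟨0, ⁅z, a⁆, by rw [h1, zero_add, add_zero], T0_zero99, T0_Lm99 hz' ha⟩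
  have hne' : W ≠ ⊤ := by
    intro h
    obtain ⟨i, hi⟩ := hne
    have h1 : B.v i ∈ W := by
      rw [h]
      trivial
    obtain ⟨a, b, hab, ha, hb⟩ := h1
    have h2 : ⁅(h0 : L), B.v i⁆ = B.v i := by
      rw [B.lie_v i h0, hi, one_smul]
    have h3 : ⁅(h0 : L), ⁅(h0 : L), B.v i⁆⁆ = -⁅(h0 : L), B.v i⁆ := by
      rw [hab, lie_add, ha.1, hb.1, zero_add, lie_neg, hb.1]
    rw [h2, h2] at h3
    have h4 : (2 : K) • B.v i = 0 := by
      rw [two_smul]
      nth_rewrite 1 [h3]
      exact neg_add_cancel _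
    rcases smul_eq_zero.1 h4 with h5 | h5
    · exact two_ne_zero h5
    · exact B.v.ne_zero i h5
  have hbot : W = ⊥ := (hirr W hW).resolve_right hne'
  have hmem : u ∈ W := ⟨u, 0, by rw [add_zero], hT0, Tm_zero99⟩
  rw [hbot, Submodule.mem_bot] at hmem
  exact hmem

/-- The multiplicity of the zero weight is at most the number of weights of degree 1. -/
theorem zero_mult_le [LieAlgebra.IsSimple K L] (B : WB (V := V) H I)
    (hirr : ∀ W : Submodule K V, (∀ x : L, ∀ u ∈ W, ⁅x, u⁆ ∈ W) → W = ⊥ ∨ W = ⊤) (h0 : H)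
    (hV : ∀ i, B.w i h0 = 0 ∨ B.w i h0 = 1 ∨ B.w i h0 = -1)
    (hL : ∀ α : H.root, α.1 h0 = 0 ∨ α.1 h0 = 1 ∨ α.1 h0 = -1)
    (hne : ∃ i, B.w i h0 = 1) :
    Nat.card {i // B.w i = 0} ≤ Nat.card {i // B.w i h0 = 1} := by
  classical
  have hex : ∀ j : {i // B.w i h0 = 1}, ∃ e : L, ∀ α : H.root, (rootSystem H).root α = B.w j.1 →
      ∀ x ∈ rootSpace H α.1, ∃ c : K, x = c • e := by
    intro j
    by_cases h : ∃ α : H.root, (rootSystem H).root α = B.w j.1
    · obtain ⟨α, hα⟩ := h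
      obtain ⟨⟨e, he⟩, -, hspan⟩ := finrank_eq_one_iff'.1 (finrank_rootSpace_eq_one α.1 (H.isNonZero_coe_root α))
      refine ⟨e, fun β hβ x hx => ?_⟩
      have h1 : β = α := (rootSystem H).root.injective (hβ.trans hα.symm)
      subst h1
      obtain ⟨c, hc⟩ := hspan ⟨x, hx⟩
      exact ⟨c, (congrArg Subtype.val hc).symm⟩
    · exact ⟨0, fun α hα => absurd ⟨α, hα⟩ h⟩
  choose e he using hex
  let φ : ({i // B.w i = 0} → K) →ₗ[K] ({i // B.w i h0 = 1} → K) :=
    LinearMap.pi fun j => (B.v.coord j.1) ∘ₗ (toEnd K L V (e j)) ∘ₗ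
      (Fintype.linearCombination K (fun i : {i // B.w i = 0} => B.v i.1))
  have hφ : Function.Injective φ := by
    rw [← LinearMap.ker_eq_bot, LinearMap.ker_eq_bot']
    intro c hc
    obtain ⟨u, hu⟩ : ∃ u, u = Fintype.linearCombination K (fun i : {i // B.w i = 0} => B.v i.1) c := ⟨_, rfl⟩
    have hu' : u = ∑ i : {i // B.w i = 0}, c i • B.v i.1 := by
      rw [hu, Fintype.linearCombination_apply]
    have hH : ∀ h : H, ⁅(h : L), u⁆ = 0 := by
      intro h
      rw [hu', lie_sum]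
      refine Finset.sum_eq_zero fun i _ => ?_
      rw [lie_smul, B.lie_v i.1 h, i.2, LinearMap.zero_apply, zero_smul, smul_zero]
    have hzero : u = 0 := by
      refine eq_zero_of_killed B hirr h0 hV hL hne (hH h0) fun α hα x hx => ?_
      apply B.v.repr.injective
      rw [map_zero]
      ext j
      by_contra hj
      have h1 : B.w j = (rootSystem H).root α := by
        ext h
        refine B.coord (c := α.1 h) ?_ hj
        rw [leibniz_lie, lie_root hx, hH h, lie_zero, add_zero, smul_lie]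
      have h2 : B.w j h0 = 1 := by rw [h1]; exact hα
      obtain ⟨c', hc'⟩ := he ⟨j, h2⟩ α h1.symm x hx
      have h3 : φ c ⟨j, h2⟩ = 0 := by rw [hc]; rfl
      have h4 : φ c ⟨j, h2⟩ = B.v.repr ⁅e ⟨j, h2⟩, u⁆ j := by
        rw [hu]
        rfl
      apply hj
      rw [hc', smul_lie, map_smul, Finsupp.smul_apply, ← h4, h3, smul_zero]
      rfl
    have hli : LinearIndependent K (fun i : {i // B.w i = 0} => B.v i.1) :=
      B.v.linearIndependent.comp _ Subtype.val_injective
    rw [hu'] at hzero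
    funext i
    exact Fintype.linearIndependent_iff.1 hli c hzero i
  have h1 := LinearMap.finrank_le_finrank_of_injective hφ
  rw [Module.finrank_fintype_fun_eq_card, Module.finrank_fintype_fun_eq_card] at h1
  rw [Nat.card_eq_fintype_card, Nat.card_eq_fintype_card]
  exact h1

end PG.L
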